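import Pool.Agent.H71.FK.Asm
import Pool.Agent.H71.HCI.Subs
import Pool.Agent.H71.S2C.Named
import Pool.Agent.H72.UV.Final

/-!
# Vaught's conjecture for `Σ_2` classes, in particular for classes closed under substructures

1. to 3.: structures of bounded arity. Let `r` be a natural number and `C` a standard Borel space.
A structure is a map `x : (Fin r → ℕ) → C`, that is, every `r`-tuple of natural numbers has a label
in `C`. This codes all relational languages whose symbols have arity at most `r`, also the infinite
ones.

1. An analytic set `X` of structures contains countably many isomorphism types, or perfectly many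
   isomorphism types, or uncountably many isomorphism types of structures `x` such that the infinite
   substructures of `x` have perfectly many isomorphism types.
2. Let `X` be the union of countably many analytic sets `Y n`, such that `Y n` is closed under
   infinite substructures which contain the points less than `k n`. Then `X` contains countably
   many or perfectly many isomorphism types.
3. The infinite substructures of every structure have countably many or perfectly many
   isomorphism types.
4. Structures of all arities: every isomorphism invariant set of structures which is a countable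
   union of countable intersections of Borel sets, each of which depends only on the restriction
   of the structure to a finite set, contains countably many or perfectly many isomorphism types.
-/

set_option autoImplicit false

open Set

namespace Pool.Agent.H77.Keep.HereditaryDiscrete

/-- Structures on the natural numbers: a label in `C` for every `r`-tuple. -/
abbrev Structure (r : ℕ) (C : Type) : Type := (Fin r → ℕ) → C

/-- `g` is an isomorphism from the structure `x` onto the structure `y`. -/
def IsIsomorphism {r : ℕ} {C : Type} (x y : Structure r C) (g : Equiv.Perm ℕ) : Prop :=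
  ∀ a : Fin r → ℕ, y (g ∘ a) = x a

/-- `A` contains structures of only countably many isomorphism types. -/
def CountablyManyTypes {r : ℕ} {C : Type} (A : Set (Structure r C)) : Prop :=
  ∃ D : Set (Structure r C), D.Countable ∧ ∀ x ∈ A, ∃ y ∈ D, ∃ g, IsIsomorphism x y g

/-- `A` contains structures of perfectly many isomorphism types: some Borel map from the Cantor
space to `A` takes distinct points to structures which are not isomorphic. -/
def PerfectlyManyTypes {r : ℕ} {C : Type} [MeasurableSpace C] (A : Set (Structure r C)) : Prop :=
  ∃ F : (ℕ → Bool) → Structure r C, Measurable F ∧ (∀ u, F u ∈ A) ∧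
    ∀ u v, u ≠ v → ¬ ∃ g, IsIsomorphism (F u) (F v) g

/-- Analytic sets: the empty set and the images of Borel maps defined on the Baire space. -/
def IsAnalytic {X : Type} [MeasurableSpace X] (A : Set X) : Prop :=
  A = ∅ ∨ ∃ f : (ℕ → ℕ) → X, Measurable f ∧ range f = A

/-- The structures which `x` induces on the infinite sets of natural numbers, in all their
enumerations. -/
def Substructures {r : ℕ} {C : Type} (x : Structure r C) : Set (Structure r C) :=
  {y | ∃ f : ℕ → ℕ, Function.Injective f ∧ y = fun a => x (f ∘ a)}

/-- `A` contains with a structure `x` the structures which `x` induces on the infinite sets that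
contain `0, …, m - 1`, in all their enumerations that fix these points. For `m = 0` this says that
`A` is closed under infinite substructures. -/
def ClosedOver {r : ℕ} {C : Type} (m : ℕ) (A : Set (Structure r C)) : Prop :=
  ∀ x ∈ A, ∀ f : ℕ → ℕ, Function.Injective f → (∀ i < m, f i = i) → (fun a => x (f ∘ a)) ∈ A

/-- Structures of all arities on the natural numbers: a label in `C` for every finite list. -/
abbrev ListStructure (C : Type) : Type := List ℕ → C

/-- `x` and `y` are isomorphic structures of all arities. -/
def Isomorphic {C : Type} (x y : ListStructure C) : Prop :=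
  ∃ g : Equiv.Perm ℕ, ∀ l : List ℕ, y (l.map g) = x l

/-- `A` is a Borel set of structures of all arities, and whether a structure belongs to `A` depends
only on the labels of the lists in a finite set `F` of points. -/
def FinitelySupported {C : Type} [MeasurableSpace C] (A : Set (ListStructure C)) : Prop :=
  MeasurableSet A ∧ ∃ F : Finset ℕ, ∀ x y : ListStructure C,
    (∀ l : List ℕ, (∀ i ∈ l, i ∈ F) → x l = y l) → (x ∈ A ↔ y ∈ A)

/-- Vaught's conjecture for classes closed under substructures and for `Σ_2` classes. -/
theorem result (r : ℕ) (C : Type) [MeasurableSpace C] [StandardBorelSpace C] :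
    (∀ X : Set (Structure r C), IsAnalytic X →
      CountablyManyTypes X ∨ PerfectlyManyTypes X ∨
        ¬ CountablyManyTypes {x ∈ X | PerfectlyManyTypes (Substructures x)}) ∧
    (∀ (k : ℕ → ℕ) (Y : ℕ → Set (Structure r C)),
      (∀ n, IsAnalytic (Y n) ∧ ClosedOver (k n) (Y n)) →
        CountablyManyTypes (⋃ n, Y n) ∨ PerfectlyManyTypes (⋃ n, Y n)) ∧
    (∀ x : Structure r C,
      CountablyManyTypes (Substructures x) ∨ PerfectlyManyTypes (Substructures x)) ∧
    ∀ X : Set (ListStructure C),
      (∃ A : ℕ → ℕ → Set (ListStructure C), (∀ n j, FinitelySupported (A n j)) ∧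
        X = ⋃ n, ⋂ j, A n j) →
      (∀ x ∈ X, ∀ y, Isomorphic x y → y ∈ X) →
        (∃ D : Set (ListStructure C), D.Countable ∧ ∀ x ∈ X, ∃ y ∈ D, Isomorphic x y) ∨
        ∃ F : (ℕ → Bool) → ListStructure C, Measurable F ∧ (∀ u, F u ∈ X) ∧
          ∀ u v, u ≠ v → ¬ Isomorphic (F u) (F v) := by
  refine ⟨fun X hX => ?_, fun k Y hY => ?_, fun x => ?_, fun X hX hinv => ?_⟩
  · exact Pool.Agent.H41.HI.Hand.result_of_star (Pool.Agent.H71.FK.Asm.star r) X hX
  · refine Pool.Agent.H71.S2C.sigma_of_hereditary r (fun C' _ _ X' hX' h' => ?_) k Y
      (fun n => (hY n).1) (fun n => (hY n).2)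
    exact Pool.Agent.H41.HI.Hand.hereditary_of_star (Pool.Agent.H71.FK.Asm.star r) X' hX' h'
  · exact Pool.Agent.H71.HCI.subs_dichotomy (Pool.Agent.H71.FK.Asm.star r) x
  · have hinv' : ∀ c ∈ X, ∀ g : Equiv.Perm ℕ, (fun l : List ℕ => c (l.map g)) ∈ X := by
      intro c hc g
      refine hinv c hc _ ⟨g.symm, fun l => ?_⟩
      simp
    rcases Pool.Agent.H72.UV.sigmaStmt C X hX hinv' with ⟨D, hD, h⟩ | ⟨f, hf, hfX, hne⟩
    · refine Or.inl ⟨D, hD, fun c hc => ?_⟩
      obtain ⟨d, hd, g, hg⟩ := h c hc
      exact ⟨d, hd, g, fun l => hg l⟩
    · exact Or.inr ⟨f, hf, hfX, fun x y hxy ⟨g, hg⟩ => hne x y hxy ⟨g, hg⟩⟩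

end Pool.Agent.H77.Keep.HereditaryDiscrete
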